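import Pool.Agent.N115.AN.Stm

/-!
Task AN/5 of project AN: the growth lemma.
-/

set_option autoImplicit false

open FF Pool.Agent.W603.LV Pool.Agent.W602.GT Pool.Agent.Y190.BV Polynomial
open Pool.Agent.N115.AN

namespace Pool.Agent.N152.AN

section res

variable {M : Type} [Field M] [Algebra ℂ M]

/-- The residue map of a rational place. -/
structure ResH (W : Place ℂ M) (r : W.O →+* ℂ) : Prop where
  res : ∀ (x : W.O) (c : ℂ), Ge W 1 ((x : M) - algebraMap ℂ M c) → r x = c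
  unit : ∀ x : W.O, r x ≠ 0 → (x : M) ≠ 0 ∧ W.ord (x : M) = 0

theorem exists_resH (W : Place ℂ M) (hs : Function.Surjective (algebraMap ℂ W.RF)) :
    ∃ r : W.O →+* ℂ, ResH W r := by
  let e : ℂ ≃+* W.RF :=
    RingEquiv.ofBijective (algebraMap ℂ W.RF) ⟨(algebraMap ℂ W.RF).injective, hs⟩
  refine ⟨(e.symm : W.RF →+* ℂ).comp W.resHom, ?_, ?_⟩
  · intro x c h
    have h1 : W.red ((x : M) - algebraMap ℂ M c) = 0 := by
      rw [W.red_eq_zero_iff (Ge.sub (N := 0) x.2 (Ge.const c))]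
      rcases h with h | h
      · exact Or.inl h
      · exact Or.inr (by omega)
    rw [W.red_sub x.2 (W.reg_const c), sub_eq_zero] at h1
    show e.symm (W.resHom x) = c
    rw [RingEquiv.symm_apply_eq]
    show _ = algebraMap ℂ W.RF c
    rw [W.algebraMap_RF, ← h1, W.red_of_reg x.2]
  · intro x h
    by_contra hc
    apply h
    have h1 : W.red (x : M) = 0 := by
      rw [W.red_eq_zero_iff x.2]
      by_contra h2
      push Not at h2
      exact hc ⟨h2.1, by have := (W.reg_iff h2.1).1 x.2; omega⟩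
    rw [W.red_of_reg x.2] at h1
    show e.symm (W.resHom x) = 0
    rw [show W.resHom x = 0 from h1, map_zero]

theorem surj_of_rat {P : Place ℂ M} (hP : Rat P) :
    Function.Surjective (algebraMap ℂ P.RF) := by
  intro y
  obtain ⟨x, hx, rfl⟩ := P.red_surjective y
  obtain ⟨c, hc⟩ := hP x hx
  refine ⟨c, ?_⟩
  rw [P.algebraMap_RF]
  have h1 : P.red (x - algebraMap ℂ M c) = 0 := by
    rw [P.red_eq_zero_iff (Ge.sub (N := 0) hx (Ge.const c))]
    rcases hc with h | h
    · exact Or.inl h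
    · exact Or.inr (by omega)
  rw [P.red_sub hx (P.reg_const c), sub_eq_zero] at h1
  exact h1.symm

/-- The constants in the valuation ring. -/
def kc (W : Place ℂ M) (c : ℂ) : W.O := ⟨algebraMap ℂ M c, W.reg_const c⟩

theorem kc_coe (W : Place ℂ M) (c : ℂ) : ((kc W c : W.O) : M) = algebraMap ℂ M c := rfl

theorem ResH.kc {W : Place ℂ M} {r : W.O →+* ℂ} (hr : ResH W r) (c : ℂ) : r (kc W c) = c :=
  hr.res _ _ (Or.inl (by rw [kc_coe, sub_self]))

theorem exists_lift (W : Place ℂ M) (p : M[X]) (h : ∀ j, Ge W 0 (p.coeff j)) :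
    ∃ A : W.O[X], A.map W.O.subtype = p := by
  have h1 : p ∈ Polynomial.lifts W.O.subtype := by
    rw [Polynomial.lifts_iff_coeff_lifts]
    intro n
    exact ⟨⟨p.coeff n, h n⟩, rfl⟩
  exact (Polynomial.mem_lifts _).1 h1

theorem sub_eval (W : Place ℂ M) (A : W.O[X]) (c : ℂ) :
    ((A.eval (kc W c) : W.O) : M) = (A.map W.O.subtype).eval (algebraMap ℂ M c) := by
  rw [Polynomial.eval_map]
  exact (Polynomial.eval₂_at_apply W.O.subtype (kc W c)).symm

theorem res_eval {W : Place ℂ M} {r : W.O →+* ℂ} (hr : ResH W r) (A : W.O[X]) (c : ℂ) :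
    r (A.eval (kc W c)) = (A.map r).eval c := by
  rw [Polynomial.eval_map]
  have := Polynomial.eval₂_at_apply (p := A) r (kc W c)
  rw [hr.kc c] at this
  exact this.symm

theorem norm_lift {W : Place ℂ M} {p : M[X]} {c : ℂ} (h : p.eval (algebraMap ℂ M c) ≠ 0)
    (h1 : ct W p c = 0) : ∃ A : W.O[X],
      A.map W.O.subtype = Polynomial.C (p.eval (algebraMap ℂ M c))⁻¹ * p ∧
      A.eval (kc W c) = 1 := by
  obtain ⟨A, hA⟩ := exists_lift W (Polynomial.C (p.eval (algebraMap ℂ M c))⁻¹ * p) (by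
    intro j
    rw [Polynomial.coeff_C_mul]
    have h2 : W.ord (p.eval (algebraMap ℂ M c)) = cnt W p := by
      unfold ct at h1; omega
    apply Ge.of_mul' (h := p.eval (algebraMap ℂ M c)) (m := cnt W p) h h2
    rw [mul_inv_cancel_left₀ h, zero_add]
    exact cnt_ge W p j)
  refine ⟨A, hA, ?_⟩
  apply Subtype.ext
  rw [sub_eval, hA, Polynomial.eval_mul, Polynomial.eval_C, inv_mul_cancel₀ h]
  rfl

end res

theorem exists_over {K M : Type} [Field K] [Field M] [Algebra ℂ K] [Algebra ℂ M] [Algebra K M]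
    [IsScalarTower ℂ K M] [FiniteDimensional K M] {P : Place ℂ K} (hP : Rat P) :
    ∃ (W : Place ℂ M) (e : ℕ) (r : W.O →+* ℂ), Over W P e ∧ ResH W r := by
  classical
  obtain ⟨S, T, -, hT, hsum⟩ := exists_places_over (K' := M) P
  have hne : S.Nonempty := by
    by_contra h
    rw [Finset.not_nonempty_iff_eq_empty] at h
    rw [h, Finset.sum_empty] at hsum
    have := Module.finrank_pos (R := K) (M := M)
    omega
  obtain ⟨W, hW⟩ := hne
  obtain ⟨e, h, h1, h2⟩ := hT W hW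
  have hs : Function.Surjective (algebraMap ℂ W.RF) := by
    let _ : Algebra P.RF W.RF := h.resMap.toRingHom.toAlgebra
    have : Module.Finite P.RF W.RF := by
      apply Module.finite_of_finrank_pos
      rw [h1] at h2
      exact pos_of_mul_pos_right h2 (Nat.zero_le _)
    have : IsScalarTower ℂ P.RF W.RF :=
      IsScalarTower.of_algebraMap_eq fun c => (h.resMap.commutes c).symm
    have : Module.Finite ℂ P.RF :=
      Module.Finite.of_surjective (Algebra.linearMap ℂ P.RF) (surj_of_rat hP)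
    have : Module.Finite ℂ W.RF := Module.Finite.trans P.RF W.RF
    exact (IsAlgClosed.algebraMap_bijective_of_isIntegral (k := ℂ) (K := W.RF)).2
  obtain ⟨r, hr⟩ := exists_resH W hs
  exact ⟨W, e, r, h, hr⟩

theorem one_bound (hPI : PolyIneq) {M : Type} [Field M] [Algebra ℂ M] {m N q : ℕ} (hm : 1 ≤ m)
    (a : Fin (N + 1) → ℂ) (a' : Fin (q + 1) → ℂ) (ha' : Function.Injective a') (i0 : Fin (N + 1))
    (j0 : Fin (q + 1)) (h0 : a i0 = a' j0) (F H : M[X]) (hF : F.natDegree ≤ q)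
    (hFc : ∀ c : ℂ, F.eval (algebraMap ℂ M c) ≠ 0) (y : Fin (N + 1) → M)
    (hy : ∀ i, y i ^ m = H.eval (algebraMap ℂ M (a i))) (hy0 : y i0 = 1) {u : M}
    {T T' : Finset M[X]} {e : M[X] → ℕ} (hfac : Fac (k := ℂ) m F H u T T' e) (i : Fin (N + 1)) :
    ∃ B : ℝ, 0 ≤ B ∧ ∀ (W : Place ℂ M) (r : W.O →+* ℂ), ResH W r → ∀ s : M, s ≠ 0 →
      ∀ Fs : W.O[X], Fs.map W.O.subtype = Polynomial.C s⁻¹ * F →
      (∀ j, (Fs.map r).eval (a' j) ≠ 0) →
      ∃ z : W.O, (z : M) = y i ∧
        ∃ j, ‖(Fs.map r).eval (a' j0)‖ * ‖r z‖ ≤ B * ‖(Fs.map r).eval (a' j)‖ := by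
  classical
  obtain ⟨Bc, hBc⟩ := hfac.dvd
  have hκ : ∃ κ : ℂ, ∏ p ∈ T', (p.eval (algebraMap ℂ M (a i)) /
      p.eval (algebraMap ℂ M (a i0))) ^ e p = algebraMap ℂ M κ := by
    have h1 : ∀ p ∈ T', ∃ κ : ℂ, (p.eval (algebraMap ℂ M (a i)) /
        p.eval (algebraMap ℂ M (a i0))) ^ e p = algebraMap ℂ M κ := by
      intro p hp
      obtain ⟨c, hc⟩ := hfac.cst p hp
      refine ⟨((a i - c) / (a i0 - c)) ^ e p, ?_⟩
      have h2 : ∀ x : ℂ, p.eval (algebraMap ℂ M x) = algebraMap ℂ M (x - c) := by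
        intro x
        rw [hc, Polynomial.eval_sub, Polynomial.eval_X, Polynomial.eval_C, map_sub]
      rw [h2, h2, map_pow, map_div₀]
    choose! κ hκ using h1
    exact ⟨∏ p ∈ T', κ p, by rw [map_prod]; exact Finset.prod_congr rfl hκ⟩
  obtain ⟨κ, hκ⟩ := hκ
  obtain ⟨C1, hC1, hPI1⟩ := hPI q q a' j0 (a i) ha' le_rfl
  refine ⟨(‖κ‖ + 1) * C1, by positivity, ?_⟩
  intro W r hr s hs Fs hFs hg
  have hF0 : F ≠ 0 := by
    rintro rfl
    exact hFc 0 (Polynomial.eval_zero)
  -- values of `F`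
  have hFe : ∀ c : ℂ, F.eval (algebraMap ℂ M c) = s * ((Fs.eval (kc W c) : W.O) : M) := by
    intro c
    rw [sub_eval, hFs, Polynomial.eval_mul, Polynomial.eval_C, mul_inv_cancel_left₀ hs]
  have hFj : ∀ j, F.coeff j = s * ((Fs.coeff j : W.O) : M) := by
    intro j
    have h1 := congrArg (fun p : M[X] => p.coeff j) hFs
    simp only [Polynomial.coeff_map, Polynomial.coeff_C_mul] at h1
    have h2 : ((Fs.coeff j : W.O) : M) = s⁻¹ * F.coeff j := h1
    rw [h2, mul_inv_cancel_left₀ hs]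
  have hg0 : (Fs.map r).eval (a i0) ≠ 0 := by rw [h0]; exact hg j0
  have hct : ct W F (a i0) = 0 := by
    refine le_antisymm ?_ (ct_nonneg W (hFc _))
    obtain ⟨j, hj1, hj2⟩ := cnt_att W hF0
    have h1 := hr.unit (Fs.eval (kc W (a i0))) (by rw [res_eval hr]; exact hg0)
    have h2 : W.ord (F.eval (algebraMap ℂ M (a i0))) = W.ord s := by
      rw [hFe, W.ord_mul hs h1.1, h1.2, add_zero]
    have h3 : ((Fs.coeff j : W.O) : M) ≠ 0 := by
      intro h
      rw [hFj, h, mul_zero] at hj1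
      exact hj1 rfl
    have h4 : W.ord s ≤ cnt W F := by
      rw [← hj2, hFj, W.ord_mul hs h3]
      have := (W.reg_iff h3).1 (Fs.coeff j).2
      omega
    unfold ct
    omega
  have hp1 : ∀ p ∈ T, p.eval (algebraMap ℂ M (a i0)) ≠ 0 := fun p hp => hfac.nroot p hp _
  have hprod1 : (∏ p ∈ T, p).eval (algebraMap ℂ M (a i0)) ≠ 0 := by
    rw [Polynomial.eval_prod]
    exact Finset.prod_ne_zero_iff.2 hp1
  have hB1 : Bc.eval (algebraMap ℂ M (a i0)) ≠ 0 := by
    intro h
    apply hFc (a i0)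
    rw [hBc, Polynomial.eval_mul, h, mul_zero]
  have hsum : ct W F (a i0) = ∑ p ∈ T, ct W p (a i0) + ct W Bc (a i0) := by
    rw [hBc, ct_mul W hprod1 hB1, ct_prod W T _ hp1]
  have hB2 := ct_nonneg W hB1
  have hT2 : ∀ p ∈ T, 0 ≤ ct W p (a i0) := fun p hp => ct_nonneg W (hp1 p hp)
  have hT3 : 0 ≤ ∑ p ∈ T, ct W p (a i0) := Finset.sum_nonneg hT2
  have hT4 : ∑ p ∈ T, ct W p (a i0) = 0 := by omega
  have hB3 : ct W Bc (a i0) = 0 := by omega
  have hT5 : ∀ p ∈ T, ct W p (a i0) = 0 := (Finset.sum_eq_zero_iff_of_nonneg hT2).1 hT4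
  obtain ⟨B0, hB0, hB4⟩ := norm_lift hB1 hB3
  have hlift : ∀ p ∈ T, ∃ A : W.O[X],
      A.map W.O.subtype = Polynomial.C (p.eval (algebraMap ℂ M (a i0)))⁻¹ * p ∧
      A.eval (kc W (a i0)) = 1 := fun p hp => norm_lift (hp1 p hp) (hT5 p hp)
  choose! A hA hA1 using hlift
  have hinj : Function.Injective (W.O.subtype) := Subtype.val_injective
  have key : Polynomial.C (Fs.eval (kc W (a i0))) * ((∏ p ∈ T, A p) * B0) = Fs := by
    apply Polynomial.map_injective _ hinj
    have h1 : W.O.subtype (Fs.eval (kc W (a i0))) =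
        s⁻¹ * F.eval (algebraMap ℂ M (a i0)) := by
      rw [hFe, inv_mul_cancel_left₀ hs]
      rfl
    rw [Polynomial.map_mul, Polynomial.map_C, Polynomial.map_mul, Polynomial.map_prod, hB0,
      Finset.prod_congr rfl hA, h1, hFs, Finset.prod_mul_distrib, ← map_prod]
    have h2 : F.eval (algebraMap ℂ M (a i0)) =
        (∏ p ∈ T, p.eval (algebraMap ℂ M (a i0))) * Bc.eval (algebraMap ℂ M (a i0)) := by
      conv_lhs => rw [hBc]
      rw [Polynomial.eval_mul, Polynomial.eval_prod]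
    have h3 : (∏ p ∈ T, p.eval (algebraMap ℂ M (a i0))) ≠ 0 := Finset.prod_ne_zero_iff.2 hp1
    calc Polynomial.C (s⁻¹ * F.eval (algebraMap ℂ M (a i0))) *
          (Polynomial.C (∏ p ∈ T, (p.eval (algebraMap ℂ M (a i0)))⁻¹) * (∏ p ∈ T, p) *
            (Polynomial.C (Bc.eval (algebraMap ℂ M (a i0)))⁻¹ * Bc))
        = Polynomial.C (s⁻¹ * F.eval (algebraMap ℂ M (a i0)) *
            (∏ p ∈ T, (p.eval (algebraMap ℂ M (a i0)))⁻¹) *
            (Bc.eval (algebraMap ℂ M (a i0)))⁻¹) * ((∏ p ∈ T, p) * Bc) := by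
          simp only [map_mul]
          ring
      _ = Polynomial.C s⁻¹ * F := by
          rw [← hBc, Finset.prod_inv_distrib, h2]
          congr 2
          field_simp
  have key2 : Polynomial.C ((Fs.map r).eval (a i0)) *
      ((∏ p ∈ T, (A p).map r) * B0.map r) = Fs.map r := by
    have h1 := congrArg (Polynomial.map r) key
    rw [Polynomial.map_mul, Polynomial.map_C, Polynomial.map_mul, Polynomial.map_prod,
      res_eval hr] at h1
    exact h1
  have hdeg : ((∏ p ∈ T, (A p).map r) * B0.map r).natDegree ≤ q := by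
    have h1 : (Fs.map r).natDegree ≤ q := by
      refine (Polynomial.natDegree_map_le).trans ?_
      rw [← Polynomial.natDegree_map_eq_of_injective hinj, hFs]
      exact (Polynomial.natDegree_C_mul_le _ _).trans hF
    rw [← key2, Polynomial.natDegree_C_mul hg0] at h1
    exact h1
  obtain ⟨j, hj⟩ := hPI1 M[X] T (fun p => (A p).map r) (B0.map r) hdeg (fun p hp => by
      rw [← h0, ← res_eval hr, hA1 p hp, map_one]) (by
      rw [← h0, ← res_eval hr, hB4, map_one])
  -- the value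
  have hone : 1 = H.eval (algebraMap ℂ M (a i0)) := by rw [← hy, hy0, one_pow]
  have hval : y i ^ m = (((∏ p ∈ T, (A p).eval (kc W (a i)) ^ e p) * kc W κ : W.O) : M) := by
    have h1 : H.eval (algebraMap ℂ M (a i)) = H.eval (algebraMap ℂ M (a i)) /
        H.eval (algebraMap ℂ M (a i0)) := by rw [← hone, div_one]
    rw [hy, h1, hfac.eq]
    simp only [Polynomial.eval_mul, Polynomial.eval_C, Polynomial.eval_prod, Polynomial.eval_pow]
    rw [mul_div_mul_left _ _ hfac.unit, mul_div_mul_comm, ← Finset.prod_div_distrib,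
      ← Finset.prod_div_distrib]
    push_cast
    rw [kc_coe, ← hκ]
    congr 1
    · refine Finset.prod_congr rfl fun p hp => ?_
      rw [sub_eval, hA p hp, Polynomial.eval_mul, Polynomial.eval_C, ← div_pow, div_eq_inv_mul]
    · refine Finset.prod_congr rfl fun p hp => ?_
      rw [div_pow]
  have hreg : W.Reg (y i) := by
    by_cases hyi : y i = 0
    · exact Or.inl hyi
    · right
      have h1 : W.Reg (y i ^ m) := by
        rw [hval]
        exact ((∏ p ∈ T, (A p).eval (kc W (a i)) ^ e p) * kc W κ : W.O).2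
      have h2 := (W.reg_iff (pow_ne_zero m hyi)).1 h1
      rw [W.ord_pow] at h2
      have h3 : (0 : ℤ) < m := by exact_mod_cast hm
      exact nonneg_of_mul_nonneg_right h2 h3
  refine ⟨⟨y i, hreg⟩, rfl, j, ?_⟩
  set z : W.O := ⟨y i, hreg⟩ with hz
  have hzm : z ^ m = (∏ p ∈ T, (A p).eval (kc W (a i)) ^ e p) * kc W κ := by
    apply Subtype.ext
    rw [← hval]
    rfl
  have hrz : r z ^ m = (∏ p ∈ T, ((A p).map r).eval (a i) ^ e p) * κ := by
    rw [← map_pow, hzm, map_mul, map_prod, hr.kc]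
    congr 1
    refine Finset.prod_congr rfl fun p _ => ?_
    rw [map_pow, res_eval hr]
  set Q : ℝ := ∏ p ∈ T, max 1 ‖((A p).map r).eval (a i)‖ with hQ
  have hQ0 : 0 ≤ Q := Finset.prod_nonneg fun p _ => le_trans zero_le_one (le_max_left _ _)
  have hb : ‖r z‖ ≤ (‖κ‖ + 1) * Q := by
    have h1 : ‖r z‖ ^ m ≤ ((‖κ‖ + 1) * Q) ^ m := by
      rw [← norm_pow, hrz, norm_mul, _root_.norm_prod, mul_pow, mul_comm]
      refine mul_le_mul ?_ ?_ (Finset.prod_nonneg fun p _ => norm_nonneg _) (by positivity)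
      · have h2 : (1 : ℝ) ≤ ‖κ‖ + 1 := by linarith [norm_nonneg κ]
        have h3 := le_self_pow₀ h2 (show m ≠ 0 by omega)
        linarith
      · rw [hQ, ← Finset.prod_pow]
        refine Finset.prod_le_prod (fun p _ => norm_nonneg _) fun p hp => ?_
        rw [norm_pow]
        calc ‖((A p).map r).eval (a i)‖ ^ e p
            ≤ (max 1 ‖((A p).map r).eval (a i)‖) ^ e p :=
              pow_le_pow_left₀ (norm_nonneg _) (le_max_right _ _) _
          _ ≤ (max 1 ‖((A p).map r).eval (a i)‖) ^ m :=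
              pow_le_pow_right₀ (le_max_left _ _) (hfac.irr p hp).2.2.2.le
    exact le_of_pow_le_pow_left₀ (show m ≠ 0 by omega) (by positivity) h1
  have hGj : ‖(Fs.map r).eval (a i0)‖ *
      ‖((∏ p ∈ T, (A p).map r) * B0.map r).eval (a' j)‖ = ‖(Fs.map r).eval (a' j)‖ := by
    have h1 := congrArg (fun p : ℂ[X] => p.eval (a' j)) key2
    beta_reduce at h1
    rw [Polynomial.eval_mul, Polynomial.eval_C] at h1
    rw [← norm_mul, h1]
  rw [← h0]
  calc ‖(Fs.map r).eval (a i0)‖ * ‖r z‖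
      ≤ ‖(Fs.map r).eval (a i0)‖ * ((‖κ‖ + 1) *
          (C1 * ‖((∏ p ∈ T, (A p).map r) * B0.map r).eval (a' j)‖)) := by
        refine mul_le_mul_of_nonneg_left (hb.trans ?_) (norm_nonneg _)
        exact mul_le_mul_of_nonneg_left hj (by positivity)
    _ = (‖κ‖ + 1) * C1 * (‖(Fs.map r).eval (a i0)‖ *
          ‖((∏ p ∈ T, (A p).map r) * B0.map r).eval (a' j)‖) := by ring
    _ = (‖κ‖ + 1) * C1 * ‖(Fs.map r).eval (a' j)‖ := by rw [hGj]

theorem over_ge {K M : Type} [Field K] [Field M] [Algebra ℂ K] [Algebra ℂ M] [Algebra K M]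
    [IsScalarTower ℂ K M] {P : Place ℂ K} {W : Place ℂ M} {e : ℕ} (h : Over W P e) {n : ℤ}
    (hn : 0 ≤ n) {x : K} (hx : Ge P n x) : Ge W n (algebraMap K M x) := by
  rcases hx with rfl | hx
  · left; exact map_zero _
  · right
    rw [h.2]
    have h1 : (1 : ℤ) ≤ e := by exact_mod_cast h.1
    nlinarith

/-- **AN/5.** -/
theorem growth (hPI : PolyIneq) : GrowthLemma := by
  classical
  intro K M _ _ _ _ _ _ _ _ m N q a a' hm ha' i0 j0 h0 F hF0 hF hFc H y hy hy0 hfac lam δ b hδ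
  obtain ⟨S, hS, hb, hδ⟩ := hδ
  have hFM : ∀ c : ℂ, (F.map (algebraMap K M)).eval (algebraMap ℂ M c) =
      algebraMap K M (F.eval (algebraMap ℂ K c)) := by
    intro c
    rw [IsScalarTower.algebraMap_apply ℂ K M, Polynomial.eval_map, Polynomial.eval₂_at_apply]
  have hFM0 : ∀ c : ℂ, (F.map (algebraMap K M)).eval (algebraMap ℂ M c) ≠ 0 := by
    intro c
    rw [hFM]
    exact (_root_.map_ne_zero _).2 (hFc c)
  have hconst : ∀ (g : M ≃ₐ[K] M) (c : ℂ), g (algebraMap ℂ M c) = algebraMap ℂ M c := by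
    intro g c
    rw [IsScalarTower.algebraMap_apply ℂ K M, g.commutes]
  have hone : ∀ (g : M ≃ₐ[K] M) (i : Fin (N + 1)), ∃ B : ℝ, 0 ≤ B ∧
      ∀ (W : Place ℂ M) (r : W.O →+* ℂ), ResH W r → ∀ s : M, s ≠ 0 →
      ∀ Fs : W.O[X], Fs.map W.O.subtype = Polynomial.C s⁻¹ * F.map (algebraMap K M) →
      (∀ j, (Fs.map r).eval (a' j) ≠ 0) →
      ∃ z : W.O, (z : M) = g (y i) ∧
        ∃ j, ‖(Fs.map r).eval (a' j0)‖ * ‖r z‖ ≤ B * ‖(Fs.map r).eval (a' j)‖ := by
    intro g i
    obtain ⟨u, T, T', e, hf⟩ := hfac g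
    refine one_bound hPI hm a a' ha' i0 j0 h0 (F.map (algebraMap K M)) (H.map (g : M →+* M))
      ((Polynomial.natDegree_map_le).trans hF) hFM0 (fun i => g (y i)) ?_ ?_ hf i
    · intro i
      have h1 : algebraMap ℂ M (a i) = (g : M →+* M) (algebraMap ℂ M (a i)) :=
        (hconst g (a i)).symm
      rw [Polynomial.eval_map, h1, Polynomial.eval₂_at_apply, ← hy i, ← map_pow]
      rfl
    · simp only [hy0, map_one]
  choose B hB0 hB using hone
  have hfin : Finite (M ≃ₐ[K] M) := inferInstance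
  have := Fintype.ofFinite (M ≃ₐ[K] M)
  set C4 : ℝ := ∑ g : M ≃ₐ[K] M, ∑ i, ‖lam i‖ * B g i with hC4
  have hC40 : 0 ≤ C4 := Finset.sum_nonneg fun g _ => Finset.sum_nonneg fun i _ =>
    mul_nonneg (norm_nonneg _) (hB0 g i)
  refine ⟨(2 * C4) ^ b, by positivity, ?_⟩
  intro P s g D0 hP hs hFs hD0 hg
  obtain ⟨W, e, r, hO, hr⟩ := exists_over (M := M) hP
  have hs' : algebraMap K M s ≠ 0 := (_root_.map_ne_zero _).2 hs
  obtain ⟨Fs, hFs1⟩ := exists_lift W (Polynomial.C (algebraMap K M s)⁻¹ *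
    F.map (algebraMap K M)) (by
      intro j
      rw [Polynomial.coeff_C_mul, Polynomial.coeff_map, ← map_inv₀, ← map_mul]
      apply over_ge hO le_rfl
      have h1 := ((hFs j).mono (zero_le_one)).add (Ge.const (P := P) (g.coeff j))
      rw [sub_add_cancel, div_eq_inv_mul] at h1
      exact h1)
  have hFs2 : Fs.map r = g := by
    ext j
    rw [Polynomial.coeff_map]
    apply hr.res
    have h1 := congrArg (fun p : M[X] => p.coeff j) hFs1
    simp only [Polynomial.coeff_map, Polynomial.coeff_C_mul] at h1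
    have h2 : ((Fs.coeff j : W.O) : M) = (algebraMap K M s)⁻¹ * algebraMap K M (F.coeff j) := h1
    have h3 := over_ge hO (zero_le_one) (hFs j)
    rw [map_sub, map_div₀, ← IsScalarTower.algebraMap_apply, div_eq_inv_mul] at h3
    rw [h2]
    exact h3
  obtain ⟨jm, -, hjm⟩ := Finset.exists_max_image Finset.univ (fun j => ‖g.eval (a' j)‖)
    ⟨j0, Finset.mem_univ j0⟩
  refine ⟨jm, ?_⟩
  have hz : ∀ (g' : M ≃ₐ[K] M) (i : Fin (N + 1)), ∃ z : W.O, (z : M) = g' (y i) ∧
      ‖g.eval (a' j0)‖ * ‖r z‖ ≤ B g' i * ‖g.eval (a' jm)‖ := by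
    intro g' i
    obtain ⟨z, h1, j, h2⟩ := hB g' i W r hr (algebraMap K M s) hs' Fs hFs1
      (fun j => by rw [hFs2]; exact hg j)
    rw [hFs2] at h2
    refine ⟨z, h1, h2.trans ?_⟩
    exact mul_le_mul_of_nonneg_left (hjm j (Finset.mem_univ j)) (hB0 g' i)
  choose z hz1 hz2 using hz
  have hX : ∀ x ∈ S, ∃ X : W.O, (X : M) = x / algebraMap K M s ∧
      ‖r X‖ ≤ C4 * ‖g.eval (a' jm)‖ := by
    intro x hx
    obtain ⟨g', rfl⟩ := (hS x).1 hx
    refine ⟨Fs.eval (kc W (a i0)) * ∑ i, kc W (lam i) * z g' i, ?_, ?_⟩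
    · push_cast
      rw [sub_eval, hFs1, Polynomial.eval_mul, Polynomial.eval_C, hFM, map_mul, g'.commutes,
        map_sum]
      simp only [kc_coe, hz1, map_mul, hconst]
      rw [div_eq_inv_mul, mul_assoc]
    · rw [map_mul, res_eval hr, hFs2, map_sum, norm_mul, h0]
      calc ‖g.eval (a' j0)‖ * ‖∑ i, r (kc W (lam i) * z g' i)‖
          ≤ ‖g.eval (a' j0)‖ * ∑ i, ‖lam i‖ * ‖r (z g' i)‖ := by
            refine mul_le_mul_of_nonneg_left ((norm_sum_le _ _).trans (le_of_eq ?_))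
              (norm_nonneg _)
            refine Finset.sum_congr rfl fun i _ => ?_
            rw [map_mul, norm_mul, hr.kc]
        _ = ∑ i, ‖lam i‖ * (‖g.eval (a' j0)‖ * ‖r (z g' i)‖) := by
            rw [Finset.mul_sum]
            refine Finset.sum_congr rfl fun i _ => ?_
            ring
        _ ≤ ∑ i, ‖lam i‖ * (B g' i * ‖g.eval (a' jm)‖) := by
            refine Finset.sum_le_sum fun i _ => ?_
            exact mul_le_mul_of_nonneg_left (hz2 g' i) (norm_nonneg _)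
        _ = (∑ i, ‖lam i‖ * B g' i) * ‖g.eval (a' jm)‖ := by
            rw [Finset.sum_mul]
            refine Finset.sum_congr rfl fun i _ => ?_
            ring
        _ ≤ C4 * ‖g.eval (a' jm)‖ := by
            refine mul_le_mul_of_nonneg_right ?_ (norm_nonneg _)
            exact Finset.single_le_sum (f := fun g' : M ≃ₐ[K] M => ∑ i, ‖lam i‖ * B g' i)
              (fun g' _ => Finset.sum_nonneg fun i _ => mul_nonneg (norm_nonneg _) (hB0 g' i))
              (Finset.mem_univ g')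
  choose! X hX1 hX2 using hX
  have hD : r (∏ x ∈ S.offDiag, (X x.1 - X x.2)) = D0 := by
    apply hr.res
    have h1 := over_ge hO (zero_le_one) hD0
    rw [map_sub, map_div₀, map_pow, ← IsScalarTower.algebraMap_apply, hδ] at h1
    convert h1 using 2
    rw [hb, ← Finset.prod_const, ← Finset.prod_div_distrib]
    push_cast
    refine Finset.prod_congr rfl fun x hx => ?_
    rw [Finset.mem_offDiag] at hx
    rw [hX1 _ hx.1, hX1 _ hx.2.1, sub_div]
  rw [← hD, map_prod, _root_.norm_prod, ← mul_pow, hb, ← Finset.prod_const]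
  refine Finset.prod_le_prod (fun x _ => norm_nonneg _) fun x hx => ?_
  rw [Finset.mem_offDiag] at hx
  rw [map_sub]
  refine (norm_sub_le _ _).trans ?_
  have h1 := hX2 _ hx.1
  have h2 := hX2 _ hx.2.1
  linarith

end Pool.Agent.N152.AN
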